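import Mathlib

set_option autoImplicit false

open Finset

namespace Pool.Agent.H.MP_b6cdd3_co

lemma restrict_count {X Y : Type} [Fintype X] [Fintype Y] [DecidableEq X] [DecidableEq Y]
    (ι : X → Y) (hι : Function.Injective ι) (S : Finset (X → Bool)) :
    (univ.filter (fun g : Y → Bool => g ∘ ι ∈ S)).card * 2 ^ Fintype.card X ≤
      S.card * 2 ^ Fintype.card Y := by
  classical
  have h1 : (univ.filter (fun g : Y → Bool => g ∘ ι ∈ S)).card ≤
      (S ×ˢ (univ : Finset ({y // y ∉ Set.range ι} → Bool))).card := by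
    refine card_le_card_of_injOn (fun g => (g ∘ ι, fun y => g y.1)) ?_ ?_
    · intro g hg
      simpa using hg
    · intro g _ g' _ e
      simp only [Prod.mk.injEq] at e
      funext y
      by_cases hy : y ∈ Set.range ι
      · obtain ⟨x, rfl⟩ := hy
        exact congrFun e.1 x
      · exact congrFun e.2 ⟨y, hy⟩
  have h2 : Fintype.card {y // y ∉ Set.range ι} + Fintype.card X = Fintype.card Y := by
    rw [Fintype.card_subtype_compl, Set.card_range_of_injective hι]
    have := Fintype.card_le_of_injective ι hι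
    omega
  rw [card_product, card_univ, Fintype.card_fun, Fintype.card_bool] at h1
  rw [← h2, pow_add, ← mul_assoc]
  exact Nat.mul_le_mul_right _ h1

lemma avoid_count (t k : ℕ) (h : Fin k × Fin k → Bool) :
    (univ.filter (fun u : (Fin t × Fin t) × (Fin k × Fin k) → Bool =>
      ∀ pq, (fun ij => u (pq, ij)) ≠ h)).card ≤ (2 ^ (k * k) - 1) ^ (t * t) := by
  have h1 : (Fintype.piFinset (fun _ : Fin t × Fin t => univ.erase h)).card =
      (2 ^ (k * k) - 1) ^ (t * t) := by
    simp [Fintype.card_piFinset, card_erase_of_mem]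
  rw [← h1]
  refine card_le_card_of_injOn (fun u pq ij => u (pq, ij)) ?_ ?_
  · intro u hu
    simpa using hu
  · intro u _ u' _ e
    funext x
    exact congrFun (congrFun e x.1) x.2

lemma three_sq (u : ℕ) (hu : 8 ≤ u) : 3 * (u * u) ≤ 2 ^ u := by
  induction u, hu using Nat.le_induction with
  | base => norm_num
  | succ u hu ih => rw [pow_succ]; nlinarith

lemma numeric (k D : ℕ) (hk : 1 ≤ k) (hD : 2 ≤ D) :
    ∃ t, 1 ≤ t ∧ D * ((2 * (t * k)) ^ (t * k) * (2 * (t * k)) ^ (t * k)) * (D - 1) ^ (t * t) <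
      D ^ (t * t) := by
  obtain ⟨a, rfl⟩ : ∃ a, D = a + 1 := ⟨D - 1, by omega⟩
  have hb : 2 * a ^ (a + 1) ≤ (a + 1) ^ (a + 1) := by
    have h2 := pow_add_mul_le_add_pow (a := a) (b := 1) (Nat.zero_le _) (by omega) (a + 1)
    simp only [Nat.add_sub_cancel, Nat.cast_id, mul_one] at h2
    rw [pow_succ] at h2 ⊢
    nlinarith [Nat.zero_le (a ^ a)]
  set c := 2 * k * (a + 1) with hc
  set u := c + 8 with hu
  set s := 2 ^ u with hs
  have hs1 : 3 * (u * u) ≤ s := three_sq u (by omega)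
  have hca : a + 1 ≤ c := by nlinarith
  refine ⟨(a + 1) * s, by nlinarith, ?_⟩
  have e1 : 2 * ((a + 1) * s * k) = c * s := by rw [hc]; ring
  have e2 : (a + 1) * s * ((a + 1) * s) = (a + 1) * ((a + 1) * (s * s)) := by ring
  rw [← pow_add, ← two_mul, e1, e2, Nat.add_sub_cancel, pow_mul a, pow_mul (a + 1)]
  have h3 : (c * s) ^ (c * s) ≤ 2 ^ ((c + u) * (c * s)) := by
    rw [pow_mul 2 (c + u)]
    refine Nat.pow_le_pow_left ?_ _
    rw [pow_add]
    exact Nat.mul_le_mul_right _ Nat.lt_two_pow_self.le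
  have h4 : a + 1 < 2 ^ (a + 1) := Nat.lt_two_pow_self
  have h5 : (a + 1) + (c + u) * (c * s) ≤ (a + 1) * (s * s) := by
    have h6 : c + (c + u) * c ≤ s := by nlinarith
    have h7 : 1 ≤ s := Nat.one_le_two_pow
    have h8 : (c + (c + u) * c) * s ≤ s * s := Nat.mul_le_mul_right _ h6
    nlinarith
  have h6 : (a + 1) * (c * s) ^ (c * s) < 2 ^ ((a + 1) * (s * s)) :=
    calc (a + 1) * (c * s) ^ (c * s) ≤ (a + 1) * 2 ^ ((c + u) * (c * s)) :=
          Nat.mul_le_mul_left _ h3
      _ < 2 ^ (a + 1) * 2 ^ ((c + u) * (c * s)) := Nat.mul_lt_mul_of_pos_right h4 (by positivity)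
      _ = 2 ^ ((a + 1) + (c + u) * (c * s)) := (pow_add _ _ _).symm
      _ ≤ _ := Nat.pow_le_pow_right (by norm_num) h5
  have ha : 0 < a := by omega
  calc _ < 2 ^ ((a + 1) * (s * s)) * (a ^ (a + 1)) ^ ((a + 1) * (s * s)) :=
        Nat.mul_lt_mul_of_pos_right h6 (by positivity)
    _ = (2 * a ^ (a + 1)) ^ ((a + 1) * (s * s)) := by rw [mul_pow]
    _ ≤ _ := Nat.pow_le_pow_left hb _

/-- a 0/1 matrix in which every pair of long sequences of rows and columns sees every pattern -/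
lemma exists_matrix (k : ℕ) (hk : 1 ≤ k) : ∃ t, 1 ≤ t ∧
    ∃ g : Fin (2 * (t * k)) × Fin (2 * (t * k)) → Bool,
    ∀ (h : Fin k × Fin k → Bool) (α β : Fin t × Fin k → Fin (2 * (t * k))),
      Function.Injective α → Function.Injective β →
      ∃ p q, ∀ i j, g (α (p, i), β (q, j)) = h (i, j) := by
  classical
  have hD : 2 ≤ 2 ^ (k * k) := by
    calc 2 = 2 ^ 1 := rfl
      _ ≤ _ := Nat.pow_le_pow_right (by norm_num) (by nlinarith)
  obtain ⟨t, ht, hnum⟩ := numeric k (2 ^ (k * k)) hk hD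
  refine ⟨t, ht, ?_⟩
  by_contra hc
  push Not at hc
  set N := 2 * (t * k) with hN
  let I := (Fin k × Fin k → Bool) × (Fin t × Fin k → Fin N) × (Fin t × Fin k → Fin N)
  let B : I → Finset (Fin N × Fin N → Bool) := fun x => univ.filter (fun g =>
    Function.Injective x.2.1 ∧ Function.Injective x.2.2 ∧
      ∀ p q, ∃ i j, g (x.2.1 (p, i), x.2.2 (q, j)) ≠ x.1 (i, j))
  have h1 : (univ : Finset (Fin N × Fin N → Bool)) ⊆ univ.biUnion B := by
    intro g _
    obtain ⟨h, α, β, h2, h3, h4⟩ := hc g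
    exact mem_biUnion.2 ⟨(h, α, β), mem_univ _, mem_filter.2 ⟨mem_univ _, h2, h3, h4⟩⟩
  have h2 : ∀ x : I, (B x).card * (2 ^ (k * k)) ^ (t * t) ≤
      (2 ^ (k * k) - 1) ^ (t * t) * 2 ^ (N * N) := by
    rintro ⟨h, α, β⟩
    by_cases hi : Function.Injective α ∧ Function.Injective β
    · let ι : (Fin t × Fin t) × (Fin k × Fin k) → Fin N × Fin N :=
        fun x => (α (x.1.1, x.2.1), β (x.1.2, x.2.2))
      have hι : Function.Injective ι := by
        rintro ⟨⟨p, q⟩, i, j⟩ ⟨⟨p', q'⟩, i', j'⟩ e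
        simp only [ι, Prod.mk.injEq] at e
        have e1 := hi.1 e.1
        have e2 := hi.2 e.2
        simp only [Prod.mk.injEq] at e1 e2 ⊢
        tauto
      have h3 := restrict_count ι hι (univ.filter (fun u => ∀ pq, (fun ij => u (pq, ij)) ≠ h))
      have h4 := avoid_count t k h
      simp only [Fintype.card_prod, Fintype.card_fin] at h3
      rw [← pow_mul, mul_comm (k * k)]
      refine le_trans (Nat.mul_le_mul_right _ (card_le_card ?_))
        (h3.trans (Nat.mul_le_mul_right _ h4))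
      intro g hg
      simp only [B, mem_filter, mem_univ, true_and] at hg ⊢
      rintro ⟨p, q⟩ e
      obtain ⟨i, j, h5⟩ := hg.2.2 p q
      exact h5 (congrFun e (i, j))
    · have : B (h, α, β) = ∅ := filter_eq_empty_iff.2 (fun g _ hg => hi ⟨hg.1, hg.2.1⟩)
      rw [this]; simp
  have h3 := (card_le_card h1).trans card_biUnion_le
  have h4 := Nat.mul_le_mul_right ((2 ^ (k * k)) ^ (t * t)) h3
  rw [sum_mul] at h4
  have h5 := h4.trans (sum_le_card_nsmul _ _ _ (fun x _ => h2 x))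
  simp only [I, card_univ, Fintype.card_fun, Fintype.card_prod, Fintype.card_fin,
    Fintype.card_bool, smul_eq_mul] at h5
  rw [mul_comm (2 ^ (N * N)), ← mul_assoc (2 ^ (k * k) * _)] at h5
  have h6 := Nat.le_of_mul_le_mul_right h5 (by positivity)
  omega

end Pool.Agent.H.MP_b6cdd3_co
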